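import Pool.Agent.H9.CA.TarG

/-!
# MP_ceca85_lc, HE: the chain and elementary maps
-/

set_option linter.unusedVariables false

open Ordinal Order Set
open scoped ZFSet

namespace CAA

open SF

theorem HE_cons (f x : V) (v : ℕ → V) :
    (fun i => app f (cons x v i)) = cons (app f x) (fun i => app f (v i)) := by
  funext i
  cases i <;> rfl

/-- elementary maps transfer definable relations -/
theorem HE_dfb {N' N f : V} (hel : IsElem N' N f) (k' : ZFm (· ∈ N')) (k : ZFm (· ∈ N))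
    {R : (V → Prop) → (ℕ → V) → Prop} (hR : Dfb ZFm R) (v : ℕ → V) (hv : ∀ i, v i ∈ N') :
    R (· ∈ N') v ↔ R (· ∈ N) fun i => app f (v i) := by
  obtain ⟨φ, hφ⟩ := hR
  rw [← hφ (· ∈ N') k' v hv, ← hφ (· ∈ N) k _ fun i => app_mem hel.func (hv i)]
  exact hel.el φ v hv

/-- elementary maps commute with definable functions -/
theorem HE_tm {N' N f : V} (hel : IsElem N' N f) (k' : ZFm (· ∈ N')) (k : ZFm (· ∈ N))
    {F : (V → Prop) → (ℕ → V) → V} (hF : Tm ZFm F) (v : ℕ → V) (hv : ∀ i, v i ∈ N') :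
    app f (F (· ∈ N') v) = F (· ∈ N) fun i => app f (v i) := by
  obtain ⟨h0, φ, hφ⟩ := hF
  have h1 : F (· ∈ N') v ∈ N' := h0 (· ∈ N') k' v hv
  have h2 : In (· ∈ N') (cons (F (· ∈ N') v) v) := In.cons hv h1
  have h3 : Sat (· ∈ N') φ (cons (F (· ∈ N') v) v) := (hφ (· ∈ N') k' _ h2).2 rfl
  have h4 := (hel.el φ _ h2).1 h3
  rw [HE_cons] at h4
  have h5 : In (· ∈ N) (cons (app f (F (· ∈ N') v)) fun i => app f (v i)) :=
    In.cons (fun i => app_mem hel.func (hv i)) (app_mem hel.func h1)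
  exact (hφ (· ∈ N) k _ h5).1 h4

theorem HE_inj {N' N f : V} (hel : IsElem N' N f) {z z2 : V} (hz : z ∈ N') (hz2 : z2 ∈ N')
    (h : app f z = app f z2) : z = z2 := by
  have h1 := hel.el (.eq 0 1) (cons z fun _ => z2) (by
    intro i
    cases i with
    | zero => exact hz
    | succ n => exact hz2)
  exact h1.2 h

theorem HE_insert (x : V) : insert x x = x ∪ {x} := by
  ext z
  rw [ZFSet.mem_insert_iff, ZFSet.mem_union, ZFSet.mem_singleton, or_comm]

theorem HE_sub (hHA : T_HA) {N a x y : V} (h : y ∈ Hc N a x) : y ∈ N := by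
  rw [hHA.1] at h
  unfold Dcl at h
  exact (ZFSet.mem_sep.1 h).1

theorem pf_HE (hHA : T_HA) (hDD : T_DD) : T_HE := by
  intro N' N f a m hel htr' htr k' k ha hmem hl l hlm
  induction l using WellFoundedLT.induction with
  | _ l ih =>
  -- the first clause
  have h1 : ∀ y, y ∈ Hc N (app f a) l.toZFSet ↔ ∃ u ∈ Hc N' a l.toZFSet, app f u = y := by
    rw [hHA.1 N (app f a), hHA.1 N' a]
    refine hDD N' N f hel ⟨a, ha⟩ _ _ ?_ ?_
    · intro y hy
      rcases ZFSet.mem_union.1 hy with hy | hy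
      · rcases ZFSet.mem_union.1 hy with hy | hy
        · rw [ZFSet.mem_singleton.1 hy]
          exact ha
        · obtain ⟨z, hz, hyz⟩ := ZFSet.mem_sUnion.1 hy
          obtain ⟨x, hx, rfl⟩ := mem_imS.1 hz
          exact HE_sub hHA hyz
      · obtain ⟨x, hx, rfl⟩ := mem_imS.1 hy
        obtain ⟨l', hl', rfl⟩ := Ordinal.mem_toZFSet_iff.1 hx
        have := (ih l' hl' (hl'.trans hlm)).2.1
        rwa [Ordinal.toZFSet_succ] at this
    · intro y
      rw [ZFSet.mem_union, ZFSet.mem_union, ZFSet.mem_singleton, ZFSet.mem_sUnion, mem_imS]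
      constructor
      · rintro ((rfl | ⟨z, hz, hyz⟩) | ⟨x, hx, rfl⟩)
        · exact ⟨a, ZFSet.mem_union.2 (Or.inl (ZFSet.mem_union.2
            (Or.inl (ZFSet.mem_singleton.2 rfl)))), rfl⟩
        · obtain ⟨x, hx, rfl⟩ := mem_imS.1 hz
          obtain ⟨l', hl', rfl⟩ := Ordinal.mem_toZFSet_iff.1 hx
          obtain ⟨u, hu, rfl⟩ := ((ih l' hl' (hl'.trans hlm)).1 y).1 hyz
          exact ⟨u, ZFSet.mem_union.2 (Or.inl (ZFSet.mem_union.2 (Or.inr (ZFSet.mem_sUnion.2
            ⟨_, mem_imS.2 ⟨_, hx, rfl⟩, hu⟩)))), rfl⟩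
        · obtain ⟨l', hl', rfl⟩ := Ordinal.mem_toZFSet_iff.1 hx
          have h2 := (ih l' hl' (hl'.trans hlm)).2.2
          rw [Ordinal.toZFSet_succ] at h2
          exact ⟨_, ZFSet.mem_union.2 (Or.inr (mem_imS.2 ⟨_, hx, rfl⟩)), h2⟩
      · rintro ⟨u, hu, rfl⟩
        rcases ZFSet.mem_union.1 hu with hu | hu
        · rcases ZFSet.mem_union.1 hu with hu | hu
          · rw [ZFSet.mem_singleton.1 hu]
            exact Or.inl (Or.inl rfl)
          · obtain ⟨z, hz, hyz⟩ := ZFSet.mem_sUnion.1 hu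
            obtain ⟨x, hx, rfl⟩ := mem_imS.1 hz
            obtain ⟨l', hl', rfl⟩ := Ordinal.mem_toZFSet_iff.1 hx
            exact Or.inl (Or.inr ⟨_, mem_imS.2 ⟨_, hx, rfl⟩,
              ((ih l' hl' (hl'.trans hlm)).1 _).2 ⟨u, hyz, rfl⟩⟩)
        · obtain ⟨x, hx, rfl⟩ := mem_imS.1 hu
          obtain ⟨l', hl', rfl⟩ := Ordinal.mem_toZFSet_iff.1 hx
          have h2 := (ih l' hl' (hl'.trans hlm)).2.2
          rw [Ordinal.toZFSet_succ] at h2
          exact Or.inr ⟨_, hx, h2.symm⟩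
  refine ⟨h1, ?_⟩
  -- the second clause
  obtain ⟨hlN, hlf, -, u, huN, hu⟩ := hl l hlm
  have hsN : (succ l).toZFSet ∈ N' := by
    rw [Ordinal.toZFSet_succ, HE_insert]
    have := (Tm.union (Tm.var 0) (Tm.sing (Tm.var 0))).1 (· ∈ N') k' (fun _ => l.toZFSet)
      fun _ => hlN
    exact this
  have hsf : app f (succ l).toZFSet = (succ l).toZFSet := by
    rw [Ordinal.toZFSet_succ, HE_insert]
    have := HE_tm hel k' k (Tm.union (Tm.var 0) (Tm.sing (Tm.var 0))) (fun _ => l.toZFSet)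
      fun _ => hlN
    simp only [hlf] at this
    exact this
  have hv : ∀ i, (cons u fun _ => (succ l).toZFSet) i ∈ N' := by
    intro i
    cases i with
    | zero => exact huN
    | succ n => exact hsN
  have hD : Dfb ZFm fun _ v => v 0 = resS (v 1) fun x => app (v 0) x :=
    Dfb.eq (Tm.var 0) (Tm.resS (g := fun _ w => app (w 1) (w 0)) (Tm.var 1)
      (Tm.app (Tm.var 1) (Tm.var 0)))
  have h2 : u = resS (succ l).toZFSet fun x => app u x := by
    refine (HE_dfb hel k' k hD (cons u fun _ => (succ l).toZFSet) hv).2 ?_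
    show app f u = resS (app f (succ l).toZFSet) fun x => app (app f u) x
    rw [hsf, hu]
    exact resS_congr fun x hx => (app_resS hx).symm
  have h3 : ∀ x ∈ (succ l).toZFSet, app u x = Hc N' a x := by
    intro x hx
    have hxN : x ∈ N' := k'.trans _ hsN x hx
    have hw : ∀ i, (cons u fun _ => x) i ∈ N' := by
      intro i
      cases i with
      | zero => exact huN
      | succ n => exact hxN
    have hT : Tm ZFm fun _ v => app (v 0) (v 1) := Tm.app (Tm.var 0) (Tm.var 1)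
    have hwN : app u x ∈ N' := hT.1 (· ∈ N') k' _ hw
    have hfw : app f (app u x) = Hc N (app f a) (app f x) := by
      have := HE_tm hel k' k hT (cons u fun _ => x) hw
      have h4 : app f (app u x) = app (app f u) (app f x) := this
      rw [h4, hu]
      refine app_resS ?_
      obtain ⟨l', hl', rfl⟩ := Ordinal.mem_toZFSet_iff.1 hx
      have : l' < m := (lt_succ_iff.1 hl').trans_lt hlm
      rw [(hl l' this).2.1]
      exact hx
    obtain ⟨l', hl', rfl⟩ := Ordinal.mem_toZFSet_iff.1 hx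
    have hl'm : l' < m := (lt_succ_iff.1 hl').trans_lt hlm
    rw [(hl l' hl'm).2.1] at hfw
    have h5 : ∀ y, y ∈ Hc N (app f a) l'.toZFSet ↔ ∃ u ∈ Hc N' a l'.toZFSet, app f u = y := by
      rcases (lt_succ_iff.1 hl').lt_or_eq with h | rfl
      · exact (ih l' h hl'm).1
      · exact h1
    ext y
    rw [hmem _ hwN y, hfw]
    constructor
    · rintro ⟨hy, hy2⟩
      obtain ⟨u', hu', he⟩ := (h5 _).1 hy2
      rwa [← HE_inj hel (HE_sub hHA hu') hy he]
    · intro hy
      exact ⟨HE_sub hHA hy, (h5 _).2 ⟨y, hy, rfl⟩⟩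
  have h4 : u = resS (succ l).toZFSet fun x => Hc N' a x := by
    rw [h2]
    exact resS_congr h3
  rw [← h4]
  exact ⟨huN, hu⟩

end CAA
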