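import Pool.Agent.H9.CA.TarQ
import Pool.Agent.H3.CA.DF
import Pool.Agent.H3.CA.DG
import Pool.Agent.H69.CA.DY

/-!
# MP_ceca85_lc, QE: closure under functions: definability, size, finite character
-/

set_option linter.unusedVariables false

open Ordinal Order Set
open scoped ZFSet

namespace Pool.Agent.H89.CA.QE

open SF CAA Pool.Agent.H69.CA

/-! ### definability -/

/-- one step of the closure -/
noncomputable def clS (F y : V) : V :=
  y ∪ (rg (rg F)).sep fun z => ∃ a ∈ om, ∃ s ∈ Lw y, ZFSet.pair a (ZFSet.pair s z) ∈ F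

theorem clF_succ (F x : V) (n : ℕ) : clF F (n + 1) x = clS F (clF F n x) := by
  show clF F n x ∪ _ = clF F n x ∪ _
  congr 1
  ext z
  simp only [ZFSet.mem_sep]
  refine and_congr_right fun _ => ?_
  constructor
  · rintro ⟨m, l, hl, h⟩
    exact ⟨nS m, nS_mem_om m, lc l, mem_Lw.2 ⟨l, hl, rfl⟩, h⟩
  · rintro ⟨a, ha, s, hs, h⟩
    obtain ⟨m, rfl⟩ := mem_om.1 ha
    obtain ⟨l, hl, rfl⟩ := mem_Lw.1 hs
    exact ⟨m, l, hl, h⟩

theorem dfb_cl : Dfb ZFm (fun _ w => ∃ a ∈ om, ∃ s ∈ Lw (w 2),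
    ZFSet.pair a (ZFSet.pair s (w 0)) ∈ w 1) := by
  refine Dfb.bex (R := fun _ u => ∃ s ∈ Lw (u 3), ZFSet.pair (u 0) (ZFSet.pair s (u 1)) ∈ u 2)
    ktr_zfm Tm.om ?_
  exact Dfb.bex (R := fun _ t => ZFSet.pair (t 1) (ZFSet.pair (t 0) (t 2)) ∈ t 3)
    ktr_zfm (Tm.Lw (Tm.var 3)) (Dfb.pairMem (Tm.var 1) (Tm.pair (Tm.var 0) (Tm.var 2)) (Tm.var 3))

theorem tm_clS : Tm ZFm (fun _ u => clS (u 0) (u 1)) := by
  refine Tm.union (Tm.var 1) ?_
  exact (Tm.sep dfb_cl (Tm.rg (Tm.rg (Tm.var 0)))).congr fun M k v hv => rfl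

theorem it_clF (M : V → Prop) (v : ℕ → V) (n : ℕ) :
    it (fun _ u => clS (u 1) (u 0)) (fun _ u => u 1) M v n = clF (v 0) n (v 1) := by
  induction n with
  | zero => rfl
  | succ n ih =>
    rw [clF_succ]
    show clS (v 0) (it (fun _ u => clS (u 1) (u 0)) (fun _ u => u 1) M v n) = _
    rw [ih]

theorem tm_clS' : Tm ZFm (fun _ u => clS (u 1) (u 0)) :=
  Tm.at2 (F := fun _ x y => clS x y) tm_clS (Tm.var 1) (Tm.var 0)

theorem tm_clo : Tm ZFm (fun _ v => clo (v 0) (v 1)) := by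
  refine (Tm.itU (f := fun _ u => clS (u 1) (u 0)) (g := fun _ u => u 1) tm_clS'
    (Tm.var 1)).congr fun M k v hv => ?_
  unfold SF.itU clo
  simp only [it_clF]

/-! ### closure -/

theorem mem_clo {F x y : V} : y ∈ clo F x ↔ ∃ n, y ∈ clF F n x := by
  unfold clo
  rw [ZFSet.mem_sUnion]
  constructor
  · rintro ⟨_, hz, hy⟩
    obtain ⟨a, ha, rfl⟩ := mem_imS.1 hz
    exact ⟨_, hy⟩
  · rintro ⟨n, hn⟩
    exact ⟨_, mem_imS.2 ⟨nS n, nS_mem_om n, rfl⟩, by rwa [nn_nS]⟩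

theorem mem_clF_succ {F x y : V} {n : ℕ} : y ∈ clF F (n + 1) x ↔ y ∈ clF F n x ∨
    ∃ (m : ℕ) (l : List V), (∀ p ∈ l, p ∈ clF F n x) ∧
      ZFSet.pair (nS m) (ZFSet.pair (lc l) y) ∈ F := by
  show y ∈ clF F n x ∪ _ ↔ _
  rw [ZFSet.mem_union, ZFSet.mem_sep]
  refine or_congr_right ⟨fun h => h.2, fun h => ⟨?_, h⟩⟩
  obtain ⟨m, l, -, h⟩ := h
  exact mem_rg.2 ⟨_, mem_rg.2 ⟨_, h⟩⟩

theorem clF_mono {F x : V} {m n : ℕ} (h : m ≤ n) : clF F m x ⊆ clF F n x := by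
  induction h with
  | refl => exact fun _ h => h
  | step _ ih => exact fun _ hy => mem_clF_succ.2 (Or.inl (ih hy))

theorem self_sub (F x : V) : x ⊆ clo F x := fun _ hy => mem_clo.2 ⟨0, hy⟩

theorem list_stage {F x : V} (l : List V) (hl : ∀ p ∈ l, p ∈ clo F x) :
    ∃ n, ∀ p ∈ l, p ∈ clF F n x := by
  induction l with
  | nil => exact ⟨0, by simp⟩
  | cons a l ih =>
    obtain ⟨n, hn⟩ := ih fun p hp => hl p (by simp [hp])
    obtain ⟨m, hm⟩ := mem_clo.1 (hl a (by simp))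
    refine ⟨max n m, fun p hp => ?_⟩
    rcases List.mem_cons.1 hp with rfl | hp
    · exact clF_mono (le_max_right _ _) hm
    · exact clF_mono (le_max_left _ _) (hn p hp)

theorem Clo_clo (F x : V) : Clo F (clo F x) := by
  intro n l y hl h
  obtain ⟨m, hm⟩ := list_stage l hl
  exact mem_clo.2 ⟨m + 1, mem_clF_succ.2 (Or.inr ⟨n, l, hm, h⟩)⟩

theorem clo_min {F x z : V} (hx : x ⊆ z) (hz : Clo F z) : clo F x ⊆ z := by
  intro y hy
  obtain ⟨n, hn⟩ := mem_clo.1 hy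
  clear hy
  induction n generalizing y with
  | zero => exact hx hn
  | succ n ih =>
    rcases mem_clF_succ.1 hn with h | ⟨m, l, hl, h⟩
    · exact ih h
    · exact hz m l y (fun p hp => ih (hl p hp)) h

theorem fin_char {F x y : V} (hy : y ∈ clo F x) : ∃ l : List V, (∀ p ∈ l, p ∈ x) ∧
    ∀ z : V, (∀ p ∈ l, p ∈ z) → y ∈ clo F z := by
  obtain ⟨n, hn⟩ := mem_clo.1 hy
  clear hy
  induction n generalizing y with
  | zero =>
    have h0 : y ∈ x := hn
    exact ⟨[y], by simpa using h0, fun z hz => self_sub F z (hz y (by simp))⟩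
  | succ n ih =>
    rcases mem_clF_succ.1 hn with h | ⟨m, l, hl, h⟩
    · exact ih h
    · have key : ∀ l : List V, (∀ p ∈ l, p ∈ clF F n x) → ∃ L : List V, (∀ p ∈ L, p ∈ x) ∧
          ∀ z : V, (∀ p ∈ L, p ∈ z) → ∀ p ∈ l, p ∈ clo F z := by
        intro l
        induction l with
        | nil => exact fun _ => ⟨[], by simp, by simp⟩
        | cons a l ihl =>
          intro hl
          obtain ⟨L, h1, h2⟩ := ihl fun p hp => hl p (by simp [hp])
          obtain ⟨L', h3, h4⟩ := ih (hl a (by simp))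
          refine ⟨L ++ L', fun p hp => ?_, fun z hz p hp => ?_⟩
          · rcases List.mem_append.1 hp with hp | hp
            · exact h1 p hp
            · exact h3 p hp
          · rcases List.mem_cons.1 hp with rfl | hp
            · exact h4 z fun q hq => hz q (List.mem_append.2 (Or.inr hq))
            · exact h2 z (fun q hq => hz q (List.mem_append.2 (Or.inl hq))) p hp
      obtain ⟨L, h1, h2⟩ := key l hl
      exact ⟨L, h1, fun z hz => Clo_clo F z m l y (h2 z hz) h⟩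

theorem clo_sub {A F x : V} (hF : FinF A F) (hx : x ⊆ A) : clo F x ⊆ A := by
  refine clo_min hx ?_
  intro n l y hl h
  obtain ⟨n', l', y', -, hy', he⟩ := hF.sub _ h
  obtain ⟨-, h2⟩ := ZFSet.pair_inj.1 he
  obtain ⟨-, h3⟩ := ZFSet.pair_inj.1 h2
  rw [h3]
  exact hy'

/-! ### sizes -/

/-- the graph of one step -/
noncomputable def gS (F y : V) : V :=
  (ZFSet.prod (ZFSet.prod om (Lw y)) (rg (rg F))).sep fun z =>
    ZFSet.pair (fst (fst z)) (ZFSet.pair (snd (fst z)) (snd z)) ∈ F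

theorem pair_mem_gS {F y q z : V} : ZFSet.pair q z ∈ gS F y ↔ ∃ (m : ℕ) (l : List V),
    (∀ p ∈ l, p ∈ y) ∧ q = ZFSet.pair (nS m) (lc l) ∧
      ZFSet.pair (nS m) (ZFSet.pair (lc l) z) ∈ F := by
  unfold gS
  rw [ZFSet.mem_sep, ZFSet.pair_mem_prod, fst_pair, snd_pair]
  constructor
  · rintro ⟨⟨hq, hz⟩, h⟩
    obtain ⟨a, ha, s, hs, rfl⟩ := ZFSet.mem_prod.1 hq
    obtain ⟨m, rfl⟩ := mem_om.1 ha
    obtain ⟨l, hl, rfl⟩ := mem_Lw.1 hs
    rw [fst_pair, snd_pair] at h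
    exact ⟨m, l, hl, rfl, h⟩
  · rintro ⟨m, l, hl, rfl, h⟩
    rw [fst_pair, snd_pair]
    exact ⟨⟨ZFSet.pair_mem_prod.2 ⟨nS_mem_om m, mem_Lw.2 ⟨l, hl, rfl⟩⟩,
      mem_rg.2 ⟨_, mem_rg.2 ⟨_, h⟩⟩⟩, h⟩

theorem tm_gS : Tm ZFm (fun _ v => gS (v 0) (v 1)) :=
  (Tm.sep (R := fun _ w => ZFSet.pair (fst (fst (w 0))) (ZFSet.pair (snd (fst (w 0))) (snd (w 0)))
      ∈ w 1)
    (Dfb.pairMem (Tm.fst (Tm.fst (Tm.var 0))) (Tm.pair (Tm.snd (Tm.fst (Tm.var 0)))
      (Tm.snd (Tm.var 0))) (Tm.var 1))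
    (Tm.prod (Tm.prod Tm.om (Tm.Lw (Tm.var 1))) (Tm.rg (Tm.rg (Tm.var 0))))).congr
      fun M k v hv => rfl

theorem in2 {M : V → Prop} {x y : V} (hx : M x) (hy : M y) : In M (cons x fun _ => y) :=
  In.cons (fun _ => hy) hx

theorem clF_mem {M : V → Prop} (k : ZFm M) {F x : V} (hF : M F) (hx : M x) (n : ℕ) :
    M (clF F n x) := by
  induction n with
  | zero => exact hx
  | succ n ih =>
    rw [clF_succ]
    exact tm_clS.1 M k (cons F fun _ => clF F n x) (in2 hF ih)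

theorem clF_sm {M : V → Prop} (k : ZFm M) {A F x C : V} (hF : M F) (hx : M x) (hC : M C)
    (hg : Gd C) (hFF : FinF A F) (h : Sm M C x) (n : ℕ) : Sm M C (clF F n x) := by
  induction n with
  | zero => exact h
  | succ n ih =>
    have hy := clF_mem k hF hx n
    have e : clF F (n + 1) x = clF F n x ∪ rg (gS F (clF F n x)) := by
      ext z
      rw [mem_clF_succ, ZFSet.mem_union, mem_rg]
      refine or_congr_right ⟨?_, ?_⟩
      · rintro ⟨m, l, hl, h⟩
        exact ⟨_, pair_mem_gS.2 ⟨m, l, hl, rfl, h⟩⟩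
      · rintro ⟨q, hq⟩
        obtain ⟨m, l, hl, -, h⟩ := pair_mem_gS.1 hq
        exact ⟨m, l, hl, h⟩
    rw [e]
    obtain ⟨f1, f2, f3, f4, f5, f6, f7, -⟩ := pf_DF M k C hC hg
    refine f5 _ _ ih ?_
    have hgS : M (gS F (clF F n x)) := tm_gS.1 M k (cons F fun _ => clF F n x) (in2 hF hy)
    refine f7 (dm (gS F (clF F n x))) _ ?_ hgS ?_ rfl
    · have hM : M (dm (gS F (clF F n x))) := (Tm.dm (Tm.var 0)).1 M k (fun _ => _) fun _ => hgS
      refine f3 _ _ hM (f4 _ _ (f1 om hg.om) (f6 _ ih)) ?_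
      intro q hq
      obtain ⟨z, hz⟩ := mem_dm.1 hq
      obtain ⟨m, l, hl, rfl, -⟩ := pair_mem_gS.1 hz
      exact ZFSet.pair_mem_prod.2 ⟨nS_mem_om m, mem_Lw.2 ⟨l, hl, rfl⟩⟩
    · intro q z z' h1 h2
      obtain ⟨m, l, hl, rfl, h3⟩ := pair_mem_gS.1 h1
      obtain ⟨m', l', hl', he, h4⟩ := pair_mem_gS.1 h2
      obtain ⟨e1, e2⟩ := ZFSet.pair_inj.1 he
      rw [← e1, ← e2] at h4
      exact hFF.svl m l z z' h3 h4

/-- the stage with index `n` -/
noncomputable def clN (F n x : V) : V := clF F (nn n) x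

theorem tm_clN : Tm ZFm fun _ u => clN (u 1) (u 0) (u 2) :=
  (tm_it (f := fun _ u => clS (u 1) (u 0)) (g := fun _ u => u 1)
    tm_clS' (Tm.var 1)).congr fun M k v hv => it_clF M _ _

theorem clo_eq (F x : V) : clo F x = (⋃₀ (imS om fun n => clN F n x) : ZFSet) := rfl

attribute [irreducible] clN

theorem clN_sm {M : V → Prop} (k : ZFm M) {A F x C : V} (hF : M F) (hx : M x) (hC : M C)
    (hg : Gd C) (hFF : FinF A F) (h : Sm M C x) (n : V) : Sm M C (clN F n x) := by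
  unfold clN
  exact clF_sm k hF hx hC hg hFF h _

theorem clo_sm {M : V → Prop} (k : ZFCm M) {A F x C : V} (hF : M F) (hx : M x) (hC : M C)
    (hg : Gd C) (hFF : FinF A F) (h : Sm M C x) : Sm M C (clo F x) := by
  have hI : In M (cons F fun _ => x) := in2 hF hx
  obtain ⟨f1, f2, f3, f4, f5, f6, f7, -⟩ := pf_DF M k.toZFm C hC hg
  have h1 : M (resS om fun n => clN F n x) :=
    (Tm.resS (g := fun _ u => clN (u 1) (u 0) (u 2)) Tm.om tm_clN).1 M k.toZFm _ hI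
  have h2 : M (imS om fun n => clN F n x) :=
    (Tm.image (g := fun _ u => clN (u 1) (u 0) (u 2)) Tm.om tm_clN).1 M k.toZFm _ hI
  have h3 : rg (resS om fun n => clN F n x) = imS om fun n => clN F n x := by
    ext z
    rw [mem_rg, mem_imS]
    constructor
    · rintro ⟨n, hn⟩
      obtain ⟨h4, h5⟩ := pair_mem_resS.1 hn
      exact ⟨n, h4, h5.symm⟩
    · rintro ⟨n, hn, rfl⟩
      exact ⟨n, pair_mem_resS.2 ⟨hn, rfl⟩⟩
  rw [clo_eq]
  refine pf_DG M k C hC hg _ h2 ?_ ?_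
  · rw [← h3]
    exact f7 om _ (f1 om hg.om) h1 (svl_resS _ _) (dm_resS _ _)
  · intro z hz
    obtain ⟨n, hn, rfl⟩ := mem_imS.1 hz
    exact clN_sm k.toZFm hF hx hC hg hFF h _

/-! ### a countable good set -/

/-- the enumerations of the stages -/
noncomputable def ee : ℕ → ℕ → V
  | 0, 0 => om
  | 0, k + 1 => nS k
  | n + 1, k => if (en k).1 = 0 then ee n (en k).2
      else {ee n (en (en k).2).1, ee n (en (en k).2).2}

/-- the first enumeration as a set -/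
noncomputable def G0 : V := resS om fun k => sel (k = ∅) om (⋃₀ k : ZFSet)

/-- the step -/
noncomputable def stp (f : V) : V := resS om fun k => sel (fst (Ev (nn k)) = ∅)
  (app f (snd (Ev (nn k))))
  {app f (fst (Ev (nn (snd (Ev (nn k)))))), app f (snd (Ev (nn (snd (Ev (nn k))))))}

/-- the enumerations as sets -/
noncomputable def hS : ℕ → V
  | 0 => G0
  | n + 1 => stp (hS n)

theorem app_hS (n k : ℕ) : app (hS n) (nS k) = ee n k := by
  induction n generalizing k with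
  | zero =>
    show app G0 (nS k) = _
    unfold G0
    rw [app_resS (nS_mem_om k)]
    cases k with
    | zero =>
      rw [sel_pos nS_zero]
      rfl
    | succ k =>
      rw [sel_neg (nS_ne_empty k), sUnion_nS]
      rfl
  | succ n ih =>
    show app (stp (hS n)) (nS k) = _
    unfold stp
    rw [app_resS (nS_mem_om k), nn_nS, Ev_eq, fst_pair, snd_pair, nn_nS, Ev_eq, fst_pair, snd_pair,
      ih, ih, ih]
    show _ = if (en k).1 = 0 then ee n (en k).2 else {ee n (en (en k).2).1, ee n (en (en k).2).2}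
    by_cases h : (en k).1 = 0
    · rw [if_pos h, h, sel_pos nS_zero]
    · rw [if_neg h]
      obtain ⟨b, hb⟩ := Nat.exists_eq_succ_of_ne_zero h
      rw [hb, sel_neg (nS_ne_empty b)]

theorem tm_stp : Tm ZFm (fun _ u => stp (u 0)) := by
  have he : Tm ZFm (fun _ (u : ℕ → V) => Ev (nn (u 0))) := tm_Ev (Tm.var 0)
  have he2 : Tm ZFm (fun _ (u : ℕ → V) => Ev (nn (snd (Ev (nn (u 0)))))) := tm_Ev (Tm.snd he)
  exact Tm.resS (g := fun _ u => sel (fst (Ev (nn (u 0))) = ∅) (app (u 1) (snd (Ev (nn (u 0)))))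
      {app (u 1) (fst (Ev (nn (snd (Ev (nn (u 0))))))), app (u 1) (snd (Ev (nn (snd (Ev (nn (u 0)))))))})
    Tm.om (Tm.sel (Dfb.eq (Tm.fst he) Tm.empty) (Tm.app (Tm.var 1) (Tm.snd he))
      (Tm.upair (Tm.app (Tm.var 1) (Tm.fst he2)) (Tm.app (Tm.var 1) (Tm.snd he2))))

theorem tm_G0 : Tm ZFm (fun _ _ => G0) :=
  Tm.resS (g := fun _ u => sel (u 0 = ∅) om (⋃₀ (u 0) : ZFSet)) Tm.om
    (Tm.sel (Dfb.eq (Tm.var 0) Tm.empty) Tm.om (Tm.sUnion (Tm.var 0)))

theorem it_hS (M : V → Prop) (v : ℕ → V) (n : ℕ) :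
    it (fun _ u => stp (u 0)) (fun _ _ => G0) M v n = hS n := by
  induction n with
  | zero => rfl
  | succ n ih =>
    show stp (it (fun _ u => stp (u 0)) (fun _ _ => G0) M v n) = _
    rw [ih]
    rfl

/-- the enumeration of the countable good set -/
noncomputable def eN (k : V) : V := app (hS (nn (fst (Ev (nn k))))) (snd (Ev (nn k)))

theorem eN_nS (k : ℕ) : eN (nS k) = ee (en k).1 (en k).2 := by
  unfold eN
  rw [nn_nS, Ev_eq, fst_pair, snd_pair, nn_nS, app_hS]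

theorem tm_eN : Tm ZFm fun _ u => eN (u 0) := by
  have he : Tm ZFm (fun _ (u : ℕ → V) => Ev (nn (u 0))) := tm_Ev (Tm.var 0)
  have h1 : Tm ZFm (fun _ (u : ℕ → V) => hS (nn (fst (Ev (nn (u 0)))))) :=
    (Tm.it tm_stp tm_G0 (Tm.fst he)).congr fun M k v hv => it_hS M v _
  exact Tm.app h1 (Tm.snd he)

attribute [irreducible] eN

/-- the countable good set -/
noncomputable def C0 : V := imS om eN

theorem mem_C0 {x : V} : x ∈ C0 ↔ ∃ n k, ee n k = x := by
  unfold C0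
  rw [mem_imS]
  constructor
  · rintro ⟨a, ha, rfl⟩
    obtain ⟨m, rfl⟩ := mem_om.1 ha
    exact ⟨_, _, (eN_nS m).symm⟩
  · rintro ⟨n, k, rfl⟩
    obtain ⟨m, hm⟩ := en_surj' n k
    exact ⟨nS m, nS_mem_om m, by rw [eN_nS, hm]⟩

theorem ee_up {n k m : ℕ} (h : n ≤ m) : ∃ j, ee m j = ee n k := by
  induction h with
  | refl => exact ⟨k, rfl⟩
  | @step m _ ih =>
    obtain ⟨j, hj⟩ := ih
    obtain ⟨i, hi⟩ := en_surj' 0 j
    refine ⟨i, ?_⟩
    show (if (en i).1 = 0 then ee m (en i).2 else {ee m (en (en i).2).1, ee m (en (en i).2).2}) = _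
    rw [hi, if_pos rfl, hj]

theorem pair_C0 {x y : V} (hx : x ∈ C0) (hy : y ∈ C0) : ({x, y} : V) ∈ C0 := by
  obtain ⟨n, k, rfl⟩ := mem_C0.1 hx
  obtain ⟨m, l, rfl⟩ := mem_C0.1 hy
  obtain ⟨i, hi⟩ := ee_up (k := k) (le_max_left n m)
  obtain ⟨j, hj⟩ := ee_up (k := l) (le_max_right n m)
  obtain ⟨a, ha⟩ := en_surj' i j
  obtain ⟨b, hb⟩ := en_surj' 1 a
  refine mem_C0.2 ⟨max n m + 1, b, ?_⟩
  show (if (en b).1 = 0 then ee (max n m) (en b).2
    else {ee (max n m) (en (en b).2).1, ee (max n m) (en (en b).2).2}) = _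
  rw [hb, if_neg (by norm_num), ha, hi, hj]

theorem gd_C0 : Gd C0 := by
  constructor
  · intro x hx y hy
    obtain ⟨n, k, rfl⟩ := mem_C0.1 hx
    induction n generalizing k with
    | zero =>
      cases k with
      | zero =>
        obtain ⟨j, rfl⟩ := mem_om.1 hy
        exact mem_C0.2 ⟨0, j + 1, rfl⟩
      | succ k =>
        have h1 : y ∈ nS k := hy
        have h2 : y ∈ om := (ZFSet.isOrdinal_toZFSet _).mem_trans h1 (nS_mem_om k)
        obtain ⟨j, rfl⟩ := mem_om.1 h2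
        exact mem_C0.2 ⟨0, j + 1, rfl⟩
    | succ n ih =>
      have h1 : y ∈ (if (en k).1 = 0 then ee n (en k).2
        else {ee n (en (en k).2).1, ee n (en (en k).2).2} : V) := hy
      by_cases h : (en k).1 = 0
      · rw [if_pos h] at h1
        exact ih _ (mem_C0.2 ⟨_, _, rfl⟩) h1
      · rw [if_neg h] at h1
        rcases ZFSet.mem_pair.1 h1 with rfl | rfl
        · exact mem_C0.2 ⟨_, _, rfl⟩
        · exact mem_C0.2 ⟨_, _, rfl⟩
  · exact mem_C0.2 ⟨0, 0, rfl⟩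
  · intro x hx y hy
    unfold ZFSet.pair
    refine pair_C0 ?_ (pair_C0 hx hy)
    have := pair_C0 hx hx
    rwa [ZFSet.pair_eq_singleton] at this

theorem C0_mem {M : V → Prop} (k : ZFm M) : M C0 ∧ ∃ g, M g ∧ Onto g om C0 := by
  have h1 : M (resS om fun n => eN n) := (Tm.resS (g := fun _ u => eN (u 0)) Tm.om tm_eN).1 M k
    (fun _ => om) fun _ => k.inf
  have h2 : M C0 := (Tm.image (g := fun _ u => eN (u 0)) Tm.om tm_eN).1 M k
    (fun _ => om) fun _ => k.inf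
  refine ⟨h2, _, h1, isFunc_resS _ _ _ fun x hx => mem_imS.2 ⟨x, hx, rfl⟩, fun b hb => ?_⟩
  obtain ⟨a, ha, rfl⟩ := mem_imS.1 hb
  exact ⟨a, ha, pair_mem_resS.2 ⟨ha, rfl⟩⟩

/-- countable sets are the sets of the size of `C0` -/
theorem ctbl_iff {M : V → Prop} (k : ZFm M) {x : V} : Ctbl M x ↔ Sm M C0 x := by
  obtain ⟨hC, g, hgM, hgO⟩ := C0_mem k
  obtain ⟨f1, f2, f3, f4, f5, f6, f7, -⟩ := pf_DF M k C0 hC gd_C0
  constructor
  · rintro (h | ⟨f, hf, ho⟩)
    · exact Or.inl h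
    · have h1 : rg f = x := by
        ext b
        rw [mem_rg]
        constructor
        · rintro ⟨a, hab⟩
          exact (ZFSet.pair_mem_prod.1 (ho.1.1 hab)).2
        · intro hb
          obtain ⟨a, -, hab⟩ := ho.2 b hb
          exact ⟨a, hab⟩
      have h2 : dm f = om := by
        ext b
        rw [mem_dm]
        constructor
        · rintro ⟨a, hab⟩
          exact (ZFSet.pair_mem_prod.1 (ho.1.1 hab)).1
        · intro hb
          exact ⟨_, pair_app_mem ho.1 hb⟩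
      rw [← h1]
      exact f7 om f (f1 om gd_C0.om) hf (svl_of_isFunc ho.1) h2
  · rintro (h | ⟨f, hf, ho⟩)
    · exact Or.inl h
    · right
      have hT : Tm ZFm fun _ u => resS om fun n => app (u 0) (app (u 1) n) :=
        Tm.resS (g := fun _ w => app (w 1) (app (w 2) (w 0))) Tm.om
          (Tm.app (Tm.var 1) (Tm.app (Tm.var 2) (Tm.var 0)))
      refine ⟨resS om fun n => app f (app g n), hT.1 M k (cons f fun _ => g) (in2 hf hgM),
        isFunc_resS _ _ _ fun n hn => app_mem ho.1 (app_mem hgO.1 hn), fun b hb => ?_⟩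
      obtain ⟨c, hc, hcb⟩ := ho.2 b hb
      obtain ⟨n, hn, hnc⟩ := hgO.2 c hc
      refine ⟨n, hn, pair_mem_resS.2 ⟨hn, ?_⟩⟩
      rw [app_eq (svl_of_isFunc hgO.1) hnc, app_eq (svl_of_isFunc ho.1) hcb]

end Pool.Agent.H89.CA.QE

open Pool.Agent.H89.CA.QE in
theorem CAA.pf_QE : CAA.T_QE := by
  refine ⟨tm_clo, fun F x => ⟨self_sub F x, Clo_clo F x, fun z => clo_min⟩,
    fun F x y hy => fin_char hy, ?_⟩
  intro M k A F hA hF hFF x hx hM
  refine ⟨clo_sub hFF hx, fun C hC hg h => clo_sm k hF hM hC hg hFF h, fun h => ?_⟩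
  rw [ctbl_iff k.toZFm] at h ⊢
  exact clo_sm k hF hM (C0_mem k.toZFm).1 gd_C0 hFF h
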